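import Pool.Agent.LibSD71.Main

/-!
# Birational invariance
-/

set_option autoImplicit false

open Polynomial

namespace SDCK

universe u v

namespace Cycles

variable {T : Cycles.{u, v}}

theorem exc_conj {N : Set T.ι} {x y : T.ι} (hxy : T.dim x = T.dim y) {g z k : T.C}
    (hg : g ∈ T.CH x y (T.dim x)) (hz : z ∈ T.Exc N x) (hk : k ∈ T.CH y x (T.dim y)) :
    g * z * k ∈ T.Exc N y := by
  unfold Exc at hz
  induction hz using Submodule.span_induction with
  | mem z hz =>
    obtain ⟨o, r, s, h, ho, a, ha, b, hb, rfl⟩ := hz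
    refine Submodule.subset_span ⟨o, r, s, by omega, by rwa [← hxy], g * a, ?_, b * k, ?_, ?_⟩
    · have h1 := T.mul_mem hg ha
      rwa [show (T.dim x : ℤ) + r - T.dim x = r by ring] at h1
    · have h1 := T.mul_mem hb hk
      rwa [show s + (T.dim y : ℤ) - T.dim x = s by omega] at h1
    · simp only [mul_assoc]
  | zero =>
    rw [mul_zero, zero_mul]
    exact Submodule.zero_mem _
  | add a b _ _ ha hb =>
    rw [mul_add, add_mul]
    exact Submodule.add_mem _ ha hb
  | smul q a _ ha =>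
    rw [mul_smul_comm, smul_mul_assoc]
    exact Submodule.smul_mem _ q ha

theorem R_smul (T : Cycles.{u, v}) (q : ℚ) (a : T.C) : T.R (q • a) = T.R (q • (1 : T.C)) * T.R a := by
  rw [← map_mul, smul_mul_assoc, one_mul]

/-- an exceptional correspondence acts on the low degrees as one that factors through `N`, points
and curves -/
theorem exc_replace {N : Set T.ι} (h : T.Basic N) {x : T.ι} {z : T.C} (hz : z ∈ T.Exc N x) :
    ∃ z' ∈ T.Gen N x, z' ∈ T.Exc N x ∧
      ∀ k : Fin (T.dim x), T.R z' * T.π x (low T k) = T.R z * T.π x (low T k) := by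
  unfold Exc at hz
  induction hz using Submodule.span_induction with
  | mem z hz =>
    obtain ⟨o, r, s, hrs, ho, a, ha, b, hb, rfl⟩ := hz
    by_cases h1 : o ∈ N ∨ T.dim o ≤ 2
    · exact ⟨a * b, mem_fac h1 hrs ha hb, Submodule.subset_span ⟨o, r, s, hrs, ho, a, ha, b, hb, rfl⟩,
        fun _ => rfl⟩
    have h2 : (T.dim x : ℤ) - 2 ≤ 2 * (r - T.dim o) := by
      rcases ho with ho | ho | ho
      · exact absurd (Or.inl ho) h1
      · exact absurd (Or.inr (by omega)) h1
      · exact ho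
    have h3 : 2 < T.dim o := by
      by_contra h4
      exact h1 (Or.inr (by omega))
    obtain ⟨c₀, hc₀, hR₀⟩ := h.low o ⟨0, by omega⟩ (by norm_num)
    obtain ⟨c₁, hc₁, hR₁⟩ := h.low o ⟨1, by omega⟩ (by norm_num)
    have hc : c₀ + c₁ ∈ T.Through o 1 := by
      refine Submodule.add_mem _ (Submodule.span_mono ?_ hc₀) hc₁
      rintro _ ⟨o', ho', t⟩
      exact ⟨o', le_trans ho' (by norm_num), t⟩
    have hmem : ∀ M : Submodule ℚ T.C, (∀ o', T.dim o' ≤ 1 → ∀ r' s' : ℤ,
        r' + s' = T.dim x + T.dim o' → ∀ a' ∈ T.CH o' x r', ∀ b' ∈ T.CH x o' s', a' * b' ∈ M) →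
        a * (c₀ + c₁) * b ∈ M := by
      intro M hM
      have h4 : T.Through o 1 ≤ M.comap ((LinearMap.mulRight ℚ b).comp (LinearMap.mulLeft ℚ a)) := by
        refine Submodule.span_le.2 ?_
        rintro _ ⟨o', ho', a', ha', b', hb', rfl⟩
        change a * (a' * b') * b ∈ M
        have h5 : a * (a' * b') * b = a * a' * (b' * b) := by simp only [mul_assoc]
        rw [h5]
        refine hM o' ho' _ _ ?_ _ (T.mul_mem ha ha') _ (T.mul_mem hb' hb)
        omega
      exact h4 hc
    refine ⟨a * (c₀ + c₁) * b, hmem _ ?_, hmem _ ?_, fun k => ?_⟩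
    · intro o' ho' r' s' hrs' a' ha' b' hb'
      exact mem_fac (Or.inr (by omega)) hrs' ha' hb'
    · intro o' ho' r' s' hrs' a' ha' b' hb'
      exact Submodule.subset_span ⟨o', r', s', hrs', Or.inr (Or.inl ho'), a', ha', b', hb', rfl⟩
    · have h4 : T.R b * T.π x (low T k) =
          (T.π o ⟨0, by omega⟩ + T.π o ⟨1, by omega⟩) * (T.R b * T.π x (low T k)) := by
        have h5 : T.R b * T.π x (low T k) = ∑ l, T.π o l * (T.R b * T.π x (low T k)) := by
          rw [← Finset.sum_mul, T.π_sum, ← mul_assoc, ← map_mul, T.Δ_mul hb]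
        have h6 : ∀ l : Fin (2 * T.dim o + 1), 2 ≤ (l : ℕ) →
            T.π o l * (T.R b * T.π x (low T k)) = 0 := by
          intro l hl
          rw [← mul_assoc]
          refine h.deg hb (low T k) l ?_
          have h7 : ((low T k : Fin (2 * T.dim x + 1)) : ℕ) = (k : ℕ) := rfl
          rw [h7]
          have h8 := k.2
          omega
        rw [add_mul]
        conv_lhs => rw [h5]
        rw [← Finset.sum_subset (Finset.subset_univ
          ({⟨0, by omega⟩, ⟨1, by omega⟩} : Finset (Fin (2 * T.dim o + 1))))]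
        · rw [Finset.sum_pair]
          intro h7
          have h8 := congrArg Fin.val h7
          simp at h8
        · intro l _ hl
          refine h6 l ?_
          by_contra h7
          apply hl
          rw [Finset.mem_insert, Finset.mem_singleton, Fin.ext_iff, Fin.ext_iff]
          change (l : ℕ) = 0 ∨ (l : ℕ) = 1
          omega
      rw [map_mul, map_mul, map_add, hR₀, hR₁, mul_assoc, mul_assoc, ← h4, map_mul, mul_assoc]
  | zero => exact ⟨0, Submodule.zero_mem _, Submodule.zero_mem _, fun _ => rfl⟩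
  | add a b _ _ ha hb =>
    obtain ⟨a', h1, h2, h3⟩ := ha
    obtain ⟨b', h4, h5, h6⟩ := hb
    refine ⟨a' + b', Submodule.add_mem _ h1 h4, Submodule.add_mem _ h2 h5, fun k => ?_⟩
    rw [map_add, map_add, add_mul, add_mul, h3, h6]
  | smul q a _ ha =>
    obtain ⟨a', h1, h2, h3⟩ := ha
    refine ⟨q • a', Submodule.smul_mem _ q h1, Submodule.smul_mem _ q h2, fun k => ?_⟩
    rw [R_smul, R_smul T q a, mul_assoc, h3, mul_assoc]

/-- polynomials in an element that commutes with `c` modulo exceptional correspondences -/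
theorem commute_aeval {N : Set T.ι} {x : T.ι} {g c : T.C} (hg : g ∈ T.CH x x (T.dim x))
    (_hc : c ∈ T.CH x x (T.dim x)) (hgc : g * c - c * g ∈ T.Exc N x) (s : ℚ[X]) :
    g * aeval g s * c - c * (g * aeval g s) ∈ T.Exc N x := by
  have h0 : ∀ n : ℕ, g ^ (n + 1) ∈ T.CH x x (T.dim x) ∧
      g ^ (n + 1) * c - c * g ^ (n + 1) ∈ T.Exc N x := by
    intro n
    induction n with
    | zero =>
      rw [zero_add, pow_one]
      exact ⟨hg, hgc⟩
    | succ n ih =>
      obtain ⟨h1, h2⟩ := ih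
      have e1 : g ^ (n + 1 + 1) * c - c * g ^ (n + 1 + 1) =
          g ^ (n + 1) * (g * c - c * g) + (g ^ (n + 1) * c - c * g ^ (n + 1)) * g := by
        rw [pow_succ g (n + 1)]
        noncomm_ring
      rw [e1, pow_succ]
      exact ⟨mul_mem_self h1 hg, Submodule.add_mem _ (exc_mul_left h1 hgc) (exc_mul_right hg h2)⟩
  induction s using Polynomial.induction_on' with
  | add p q hp hq =>
    have e1 : g * aeval g (p + q) * c - c * (g * aeval g (p + q)) =
        (g * aeval g p * c - c * (g * aeval g p)) + (g * aeval g q * c - c * (g * aeval g q)) := by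
      rw [map_add, mul_add, add_mul, mul_add]
      abel
    rw [e1]
    exact Submodule.add_mem _ hp hq
  | monomial n a =>
    have h1 : g * aeval g (Polynomial.monomial n a) = a • g ^ (n + 1) := by
      rw [aeval_monomial, ← Algebra.smul_def, mul_smul_comm, pow_succ']
    rw [h1, smul_mul_assoc, mul_smul_comm, ← smul_sub]
    exact Submodule.smul_mem _ a (h0 n).2

theorem lowGen_of_dom {N : Set T.ι} (h : T.Basic N) {x : T.ι} (hx : T.Dom N x) :
    T.LowGen N x := by
  obtain ⟨y, hd, α, hα, β, hβ, g, hg, hβα, hcomm, ⟨p, hp, hpg⟩, q, hq, hk⟩ := hx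
  have hα' : α ∈ T.CH x y (T.dim y) := by rwa [← hd]
  have hαβ : α * β ∈ T.CH y y (T.dim y) := by
    have h1 := T.mul_mem hα hβ
    rwa [show (T.dim x : ℤ) + T.dim y - T.dim x = T.dim y by ring] at h1
  obtain ⟨s, hsG, hss, hsv⟩ := exists_idem_mod hg hp hpg hq
  have hcomm' := commute_aeval (gen_le hg) hαβ hcomm s
  obtain ⟨e, he⟩ : ∃ e, e = g * aeval g s := ⟨_, rfl⟩
  rw [← he] at hsG hss hsv hcomm'
  have heC : e ∈ T.CH y y (T.dim y) := gen_le hsG
  have hek : ∀ k : Fin (T.dim x), T.R e * (T.R α * T.π x (low T k)) = T.R α * T.π x (low T k) :=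
    fun k => hsv _ (hk k)
  obtain ⟨f, hf⟩ : ∃ f, f = β * e * α := ⟨_, rfl⟩
  have hfG : f ∈ T.Gen N x := by
    rw [hf]
    exact mul_gen_mul hd.symm hβ hsG hα'
  have hfC : f ∈ T.CH x x (T.dim x) := gen_le hfG
  have hff : f * f - f ∈ T.Exc N x := by
    have e1 : f * f - f = β * (e * (α * β * e - e * (α * β))) * α +
        β * (e * e - e) * α * (β * α) + f * (β * α - T.Δ x) := by
      have e2 : f * T.Δ x = f := T.mul_Δ hfC
      have e3 : f * (β * α - T.Δ x) = f * (β * α) - f := by rw [mul_sub, e2]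
      rw [e3, hf]
      noncomm_ring
    rw [e1]
    refine Submodule.add_mem _ (Submodule.add_mem _ ?_ ?_) (exc_mul_left hfC hβα)
    · refine exc_conj hd.symm hβ (exc_mul_left heC ?_) hα
      have h1 := Submodule.neg_mem _ hcomm'
      rwa [neg_sub] at h1
    · have hβα' : β * α ∈ T.CH x x (T.dim x) := by
        have h1 := T.mul_mem hβ hα
        rwa [show (T.dim y : ℤ) + T.dim x - T.dim y = T.dim x by ring] at h1
      exact exc_mul_right hβα' (exc_conj hd.symm hβ hss hα)
  obtain ⟨ε, hεG, hεE, hεR⟩ := exc_replace h hβα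
  have hεC : ε ∈ T.CH x x (T.dim x) := gen_le hεG
  refine lowGen_of_idem_mod h.facts h (f := f - ε) (Submodule.sub_mem _ hfG hεG) ?_ fun k => ?_
  · have e1 : (f - ε) * (f - ε) - (f - ε) = (f * f - f) + (ε - f * ε - ε * f + ε * ε) := by
      noncomm_ring
    rw [e1]
    refine Submodule.add_mem _ hff (Submodule.add_mem _ (Submodule.sub_mem _ (Submodule.sub_mem _
      hεE (exc_mul_left hfC hεE)) (exc_mul_right hfC hεE)) (exc_mul_left hεC hεE))
  · have h2 : T.R f * T.π x (low T k) = T.R (β * α) * T.π x (low T k) := by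
      rw [hf, map_mul, map_mul, map_mul, mul_assoc, mul_assoc, hek, mul_assoc]
    have h3 := hεR k
    rw [map_sub, sub_mul, ρ_mul_π] at h3
    rw [map_sub, sub_mul, h2, h3, sub_sub_cancel]

theorem dom_of_lowGen {N : Set T.ι} {x : T.ι} (hx : T.LowGen N x) : T.Dom N x := by
  obtain ⟨E, hE, hEE, hk⟩ := hx
  have hEC := gen_le hE
  refine ⟨x, rfl, T.Δ x, T.Δ_mem x, T.Δ x, T.Δ_mem x, E, hE, ?_, ?_,
    ⟨Polynomial.X - Polynomial.C 1, Polynomial.X_sub_C_ne_zero 1, ?_⟩,
    Polynomial.X - Polynomial.C 1, ?_, fun k => ?_⟩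
  · rw [T.Δ_mul (T.Δ_mem x), sub_self]
    exact Submodule.zero_mem _
  · rw [T.Δ_mul (T.Δ_mem x), T.mul_Δ hEC, T.Δ_mul hEC, sub_self]
    exact Submodule.zero_mem _
  · rw [map_sub, aeval_X, aeval_C, map_one, mul_sub, hEE, mul_one, sub_self]
    exact Submodule.zero_mem _
  · rw [eval_sub, eval_X, eval_C]
    norm_num
  · rw [ρ_mul_π, map_sub, map_sub, aeval_X, aeval_C, map_one, map_one, sub_mul, hk, one_mul,
      sub_self]

theorem lowGen_of_ck {N : Set T.ι} {x : T.ι} {P : Fin (2 * T.dim x + 1) → T.C}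
    (hP : T.IsCK x P) (hG : ∀ k : Fin (T.dim x), P (low T k) ∈ T.Gen N x) : T.LowGen N x := by
  classical
  obtain ⟨-, hP, -, hR⟩ := hP
  have hlow : ∀ {k l : Fin (T.dim x)}, low T k = low T l → k = l := fun {k l} h => by
    have h1 := congrArg Fin.val h
    exact Fin.ext h1
  refine ⟨∑ k : Fin (T.dim x), P (low T k), Submodule.sum_mem _ fun k _ => hG k, ?_,
    fun k => ?_⟩
  · rw [Finset.sum_mul]
    refine Finset.sum_congr rfl fun k _ => ?_
    rw [Finset.mul_sum, Finset.sum_eq_single k]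
    · exact (hP.idem _).eq
    · intro l _ hl
      exact hP.ortho fun h' => hl (hlow h').symm
    · exact fun h => absurd (Finset.mem_univ k) h
  · rw [map_sum, Finset.sum_mul, Finset.sum_eq_single k]
    · rw [hR]
      exact ((T.π_ortho x).idem _).eq
    · intro l _ hl
      rw [hR]
      exact (T.π_ortho x).ortho fun h' => hl (hlow h')
    · exact fun h => absurd (Finset.mem_univ k) h

/-- **The criterion.** -/
theorem dom_criterion {N : Set T.ι} (h : T.Basic N) (x : T.ι) :
    List.TFAE [∃ P, T.IsSelfDualCK x P ∧ ∀ k : Fin (T.dim x), P (low T k) ∈ T.Gen N x,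
      ∃ P, T.IsCK x P ∧ ∀ k : Fin (T.dim x), P (low T k) ∈ T.Gen N x,
      T.Dom N x] := by
  tfae_have 1 → 2 := by
    rintro ⟨P, hP, hG⟩
    exact ⟨P, hP.1, hG⟩
  tfae_have 2 → 3 := by
    rintro ⟨P, hP, hG⟩
    exact dom_of_lowGen (lowGen_of_ck hP hG)
  tfae_have 3 → 1 := fun h3 => selfDual_of_lowGen h.facts (lowGen_of_dom h h3)
  tfae_finish

/-- two varieties that are birational modulo exceptional correspondences -/
theorem dom_of_birational {N : Set T.ι} {x y : T.ι} (hd : T.dim x = T.dim y) {a b : T.C}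
    (ha : a ∈ T.CH x y (T.dim x)) (hb : b ∈ T.CH y x (T.dim y)) (h : T.Basic N)
    (hba : b * a - T.Δ x ∈ T.Exc N x) (hab : a * b - T.Δ y ∈ T.Exc N y) (hy : T.Dom N y) :
    T.Dom N x := by
  obtain ⟨E, hE, hEE, hk⟩ := lowGen_of_dom h hy
  have hEC := gen_le hE
  refine ⟨y, hd, a, ha, b, hb, E, hE, hba, ?_, ⟨Polynomial.X - Polynomial.C 1,
    Polynomial.X_sub_C_ne_zero 1, ?_⟩, Polynomial.X - Polynomial.C 1, ?_, fun k => ?_⟩
  · have h1 : E * (a * b) - a * b * E = E * (a * b - T.Δ y) - (a * b - T.Δ y) * E := by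
      rw [mul_sub, sub_mul, T.mul_Δ hEC, T.Δ_mul hEC]
      abel
    rw [h1]
    exact Submodule.sub_mem _ (exc_mul_left hEC hab) (exc_mul_right hEC hab)
  · rw [map_sub, aeval_X, aeval_C, map_one, mul_sub, hEE, mul_one, sub_self]
    exact Submodule.zero_mem _
  · rw [eval_sub, eval_X, eval_C]
    norm_num
  · have hkl : (k : ℕ) < T.dim y := by rw [← hd]; exact k.2
    have h1 : T.R a * T.π x (low T k) = T.π y (low T ⟨k, hkl⟩) * T.R a :=
      commute_π' h.facts hd ha (low T k) (low T ⟨k, hkl⟩) rfl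
    rw [map_sub, map_sub, aeval_X, aeval_C, map_one, map_one, sub_mul, one_mul, h1, ← mul_assoc, hk,
      sub_self]

end Cycles

end SDCK
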