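import Pool.Agent.LibSD67.Z

/-!
# Correspondences with high twist and birational equivalence
-/

set_option autoImplicit false

namespace SDCK

universe u v

namespace Cycles

variable (T : Cycles.{u, v})

/-- Basic facts on cycles and cohomology; `N` is a set of varieties with finite-dimensional motive
and algebraic Künneth projectors. -/
structure Basic (N : Set T.ι) : Prop where
  /-- a correspondence of codimension `c` on `V i × V j` maps cohomology of degree `k` to degree
  `k + 2 (c - dim V i)` -/
  deg : ∀ {i j : T.ι} {c : ℤ} {a : T.C}, a ∈ T.CH i j c →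
    ∀ (k : Fin (2 * T.dim i + 1)) (l : Fin (2 * T.dim j + 1)),
    ((l : ℕ) : ℤ) ≠ (k : ℕ) + 2 * (c - T.dim i) → T.π j l * T.R a * T.π i k = 0
  /-- the Künneth projectors of the members of `N` are algebraic -/
  kunneth : ∀ i ∈ N, ∀ k, ∃ c ∈ T.CH i i (T.dim i), T.R c = T.π i k
  /-- endomorphisms of sums of twists of motives of members of `N` which act as `0` on the
  cohomology are nilpotent -/
  nil : ∀ (n : ℕ) (j : Fin n → T.ι) (s : Fin n → ℤ) (M : Matrix (Fin n) (Fin n) T.C),
    (∀ a, j a ∈ N) → (∀ a b, M a b ∈ T.CH (j b) (j a) (T.dim (j b) + s a - s b)) →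
    (∀ a b, T.R (M a b) = 0) → IsNilpotent M
  /-- for `k ≤ 1` the Künneth projector in degree `k` is the class of a correspondence of degree
  `0` that factors through varieties of dimension at most `k` (Murre) -/
  low : ∀ i (k : Fin (2 * T.dim i + 1)), (k : ℕ) ≤ 1 → ∃ c ∈ T.Through i (k : ℕ), T.R c = T.π i k

/-- The exceptional correspondences of degree `0` on `V x`: sums of `a * b` with `b : V x → V o`,
`a : V o → V x` of opposite degrees, where `o ∈ N` or `dim V o ≤ 1` or the twist
`(codimension of a) - dim V o` is at least `(dim V x - 2) / 2`. If `dim V x = 3` or `4` these are all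
cycles supported on `V x × D` with `D` of codimension at least `1`, and those through `N`, points and
curves. -/
def Exc (N : Set T.ι) (x : T.ι) : Submodule ℚ T.C :=
  Submodule.span ℚ {z | ∃ o, ∃ r s : ℤ, r + s = T.dim x + T.dim o ∧
    (o ∈ N ∨ T.dim o ≤ 1 ∨ (T.dim x : ℤ) - 2 ≤ 2 * (r - T.dim o)) ∧
    ∃ a ∈ T.CH o x r, ∃ b ∈ T.CH x o s, a * b = z}

/-- For some `V y` of the same dimension as `V x` there are correspondences `a : V x → V y` and
`b : V y → V x` of degree `0` with `b * a = Δ x` modulo exceptional correspondences, and some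
`g ∈ Gen N y` which, modulo exceptional correspondences, commutes with `a * b` and satisfies a nonzero
polynomial `p` over `ℚ`, and which acts invertibly on the image under `a` of the cohomology of `V x` in
degrees `k < dim V x`: it satisfies there a polynomial `q` with `q(0) ≠ 0`.
For instance `y = x` and `a = b = Δ x`; or `V x` and `V y` are birational, of dimension at most `4`, and
`a`, `b` are the closures of the graphs; or `V x` is birational to a quotient of `V y` by a finite
group which leaves `g` invariant. -/
def Dom (N : Set T.ι) (x : T.ι) : Prop :=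
  ∃ y, T.dim x = T.dim y ∧ ∃ a ∈ T.CH x y (T.dim x), ∃ b ∈ T.CH y x (T.dim y), ∃ g ∈ T.Gen N y,
    b * a - T.Δ x ∈ T.Exc N x ∧ g * (a * b) - a * b * g ∈ T.Exc N y ∧
    (∃ p : Polynomial ℚ, p ≠ 0 ∧ g * Polynomial.aeval g p ∈ T.Exc N y) ∧
    ∃ q : Polynomial ℚ, q.eval 0 ≠ 0 ∧
      ∀ k : Fin (T.dim x), T.R (Polynomial.aeval g q) * (T.R a * T.π x (low T k)) = 0

end Cycles

end SDCK
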