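import Pool.Agent.LibSD71.Defs

/-!
# From correspondences that are algebraic modulo exceptional ones to idempotents
-/

set_option autoImplicit false

open Polynomial

namespace SDCK

universe u v

namespace Cycles

variable {T : Cycles.{u, v}}

/-- compositions through points and curves belong to `Cv` -/
theorem cv_of_dim_le_one {N : Set T.ι} (h : T.Facts N) {x o : T.ι} (ho : T.dim o ≤ 1) {r s : ℤ}
    (hrs : r + s = T.dim x + T.dim o) {a b : T.C} (ha : a ∈ T.CH o x r) (hb : b ∈ T.CH x o s) :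
    a * b ∈ T.Cv N x := by
  obtain ⟨p, hp⟩ := murre2 h o (by omega)
  have h1 : a * b = ∑ k, a * p k * b := by
    rw [← Finset.sum_mul, ← Finset.mul_sum, hp.1.1.2.2.1, T.mul_Δ ha]
  rw [h1]
  refine Submodule.mem_sup_right (Submodule.sum_mem _ fun k _ => ?_)
  exact piece_mem (by omega) hp hrs ha hb k (fun h2 _ => by omega) trivial

/-- compositions through `N` belong to `Cv` -/
theorem cv_of_mem {N : Set T.ι} {x o : T.ι} (ho : o ∈ N) {r s : ℤ}
    (hrs : r + s = T.dim x + T.dim o) {a b : T.C} (ha : a ∈ T.CH o x r) (hb : b ∈ T.CH x o s) :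
    a * b ∈ T.Cv N x :=
  Submodule.mem_sup_left (mem_fac ho hrs ha hb)

theorem Basic.facts {N : Set T.ι} (h : T.Basic N) : T.Facts N where
  deg := h.deg
  kunneth := h.kunneth
  nil := h.nil
  zero := fun i _ k hk => by
    have h1 := h.low i k (by omega)
    rwa [hk] at h1
  one := fun i _ k hk => by
    have h1 := h.low i k (by omega)
    rwa [hk] at h1

theorem exc_le (N : Set T.ι) (x : T.ι) : T.Exc N x ≤ T.CH x x (T.dim x) := by
  refine Submodule.span_le.2 ?_
  rintro _ ⟨o, r, s, h, -, a, ha, b, hb, rfl⟩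
  have h1 := T.mul_mem ha hb
  have h2 : r + s - (T.dim o : ℤ) = T.dim x := by omega
  rwa [h2] at h1

theorem exc_mul {N : Set T.ι} {x : T.ι} {g z k : T.C} (hg : g ∈ T.CH x x (T.dim x))
    (hz : z ∈ T.Exc N x) (hk : k ∈ T.CH x x (T.dim x)) : g * z * k ∈ T.Exc N x := by
  unfold Exc at hz
  induction hz using Submodule.span_induction with
  | mem z hz =>
    obtain ⟨o, r, s, h, ho, a, ha, b, hb, rfl⟩ := hz
    refine Submodule.subset_span ⟨o, r, s, h, ho, g * a, ?_, b * k, ?_, ?_⟩
    · have h1 := T.mul_mem hg ha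
      rwa [show (T.dim x : ℤ) + r - T.dim x = r by ring] at h1
    · have h1 := T.mul_mem hb hk
      rwa [show s + (T.dim x : ℤ) - T.dim x = s by ring] at h1
    · simp only [mul_assoc]
  | zero =>
    rw [mul_zero, zero_mul]
    exact Submodule.zero_mem _
  | add a b _ _ ha hb =>
    rw [mul_add, add_mul]
    exact Submodule.add_mem _ ha hb
  | smul q a _ ha =>
    rw [mul_smul_comm, smul_mul_assoc]
    exact Submodule.smul_mem _ q ha

/-- a divisor on `V i × V o`, restricted to the middle piece of the surface `V i`, factors through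
points -/
theorem middle_one {N : Set T.ι} (h : T.Facts N) (h0 : T.Basic N) {j o : T.ι}
    (hj : T.dim j = 2) {q : T.C} (hq : q ∈ T.CH j j (T.dim j))
    (hR : ∀ k : Fin (2 * T.dim j + 1), (k : ℕ) = 2 → T.R q = T.π j k) {c : ℤ} (hc : c ≤ 1)
    {m : T.C} (hm : m ∈ T.CH j o c) :
    m * q ∈ Submodule.span ℚ {z | ∃ o', T.dim o' = 0 ∧ ∃ r s : ℤ, r + s = c ∧
      ∃ a ∈ T.CH o' o r, ∃ b ∈ T.CH j o' s, a * b = z} := by
  have hmq : m * q ∈ T.CH j o c := by
    have h1 := T.mul_mem hm hq
    rwa [show c + (T.dim j : ℤ) - T.dim j = c by ring] at h1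
  have h2lt : 2 < 2 * T.dim j + 1 := by omega
  have hRq := hR ⟨2, h2lt⟩ rfl
  have hzero : ∀ l : Fin (2 * T.dim o + 1), ((l : ℕ) : ℤ) ≠ 2 + 2 * (c - T.dim j) →
      T.π o l * T.R (m * q) = 0 := by
    intro l hl
    rw [map_mul, hRq, ← mul_assoc]
    exact h.deg hm ⟨2, h2lt⟩ l hl
  rcases lt_or_eq_of_le hc with hc | rfl
  · have h1 : m * q = 0 := by
      refine zero_of_R (by omega) hmq ?_
      have h2 : T.R (m * q) = ∑ l, T.π o l * T.R (m * q) := by
        rw [← Finset.sum_mul, T.π_sum, ← map_mul, T.Δ_mul hmq]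
      rw [h2]
      refine Finset.sum_eq_zero fun l _ => hzero l ?_
      rw [hj]
      push_cast
      omega
    rw [h1]
    exact Submodule.zero_mem _
  · obtain ⟨e, he, hRe⟩ := h0.low o ⟨0, by omega⟩ (by norm_num)
    have heo : e ∈ T.CH o o (T.dim o) := by
      have h1 := fac_le (T := T) {o' | T.dim o' ≤ 0} o o (T.dim o)
        (through_le_fac (fun _ ho' => ho') he)
      exact h1
    have hemq : e * (m * q) ∈ T.CH j o 1 := by
      have h1 := T.mul_mem heo hmq
      rwa [show (T.dim o : ℤ) + 1 - T.dim o = 1 by ring] at h1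
    have hd : m * q - e * (m * q) ∈ T.CH j o 1 := Submodule.sub_mem _ hmq hemq
    have hRd : T.R (m * q - e * (m * q)) = 0 := by
      rw [map_sub, map_mul T.R e, hRe]
      have h2 : T.R (m * q) = ∑ l, T.π o l * T.R (m * q) := by
        rw [← Finset.sum_mul, T.π_sum, ← map_mul, T.Δ_mul hmq]
      have h3 : ∑ l, T.π o l * T.R (m * q) = T.π o ⟨0, by omega⟩ * T.R (m * q) := by
        refine Finset.sum_eq_single _ (fun l _ hl => hzero l ?_) fun h4 => ?_
        · intro h5
          apply hl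
          apply Fin.ext
          change (l : ℕ) = 0
          rw [hj] at h5
          push_cast at h5
          omega
        · exact absurd (Finset.mem_univ _) h4
      rw [h3] at h2
      rw [← h2, sub_self]
    have h1 := T.CH_one hd hRd
    have h2 : m * q = e * (m * q) + (m * q - e * (m * q)) := by abel
    rw [h2]
    refine Submodule.add_mem _ ?_ ?_
    · have h3 : T.Through o 0 ≤ (Submodule.span ℚ {z | ∃ o', T.dim o' = 0 ∧ ∃ r s : ℤ, r + s = 1 ∧
          ∃ a ∈ T.CH o' o r, ∃ b ∈ T.CH j o' s, a * b = z}).comap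
            (LinearMap.mulRight ℚ (m * q)) := by
        refine Submodule.span_le.2 ?_
        rintro _ ⟨o', ho', a, ha, b, hb, rfl⟩
        have h4 : T.dim o' = 0 := by omega
        refine Submodule.subset_span ⟨o', h4, T.dim o', T.dim o + 1 - T.dim o, ?_, a, ha,
          b * (m * q), T.mul_mem hb hmq, (mul_assoc a b (m * q)).symm⟩
        rw [h4]
        push_cast
        ring
      exact h3 he
    · refine Submodule.span_le.2 ?_ h1
      rintro _ ⟨o', ho', ⟨a, ha, b, hb, -, rfl⟩ | ⟨a, ha, b, hb, -, rfl⟩⟩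
      · exact Submodule.subset_span ⟨o', ho', 0, 1, by ring, a, ha, b, hb, rfl⟩
      · exact Submodule.subset_span ⟨o', ho', 1, 0, by ring, a, ha, b, hb, rfl⟩

/-- correspondences of high twist times correspondences of low weight -/
theorem exc_wt {N : Set T.ι} (h : T.Facts N) (h0 : T.Basic N) {x : T.ι} {w z : T.C}
    (hw : w ∈ T.Exc N x) (hz : z ∈ T.Wt N x (fun p => p ≤ (T.dim x : ℤ) - 1)) :
    w * z ∈ T.Cv N x := by
  have hzC : z ∈ T.CH x x (T.dim x) := wt_le hz
  unfold Exc at hw
  induction hw using Submodule.span_induction with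
  | mem w hw =>
    obtain ⟨o, r, s, hrs, ho, a, ha, b, hb, rfl⟩ := hw
    rcases ho with ho | ho | ho
    · rw [mul_assoc]
      refine cv_of_mem ho hrs ha ?_
      have h1 := T.mul_mem hb hzC
      rwa [show s + (T.dim x : ℤ) - T.dim x = s by ring] at h1
    · rw [mul_assoc]
      refine cv_of_dim_le_one h ho hrs ha ?_
      have h1 := T.mul_mem hb hzC
      rwa [show s + (T.dim x : ℤ) - T.dim x = s by ring] at h1
    have hab : a * b ∈ T.CH x x (T.dim x) := by
      have h1 := T.mul_mem ha hb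
      rwa [show r + s - (T.dim o : ℤ) = T.dim x by omega] at h1
    obtain ⟨t, ht, σ, hσ, rfl⟩ := Submodule.mem_sup.1 hz
    rw [mul_add]
    refine Submodule.add_mem _ (Submodule.mem_sup_left ?_) ?_
    · have h1 := mul_fac hab ht.1
      rwa [show (T.dim x : ℤ) + T.dim x - T.dim x = T.dim x by ring] at h1
    · clear hz hzC
      unfold Sfc at hσ
      induction hσ using Submodule.span_induction with
      | mem σ hσ =>
        obtain ⟨j, p, k, ρ, hj, hp, -, hP, β, hβ, α, hα, rfl⟩ := hσ
        have hP' : ((k : ℕ) : ℤ) + 2 * ρ ≤ (T.dim x : ℤ) - 1 := hP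
        by_cases hk : T.dim j = 2 ∧ (k : ℕ) = 2
        · obtain ⟨hj2, hk2⟩ := hk
          have hm : b * β ∈ T.CH j o (s + (T.dim j + ρ) - T.dim x) := T.mul_mem hb hβ
          have h1 := middle_one h h0 hj2 (hp.1.1.1 k) (fun k' hk' => by
            rw [hp.1.1.2.2.2 k]
            congr 1
            exact Fin.ext (by omega)) (c := s + (T.dim j + ρ) - T.dim x) (by
              rw [hj2]
              rw [hk2] at hP'
              push_cast at hP' ⊢
              omega) hm
          have h2 : a * b * (β * p k * α) = a * (b * β * p k) * α := by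
            simp only [mul_assoc]
          rw [h2]
          have h3 : Submodule.span ℚ {z | ∃ o', T.dim o' = 0 ∧ ∃ r' s' : ℤ,
              r' + s' = s + (T.dim j + ρ) - T.dim x ∧
              ∃ a' ∈ T.CH o' o r', ∃ b' ∈ T.CH j o' s', a' * b' = z} ≤
              (T.Cv N x).comap ((LinearMap.mulRight ℚ α).comp (LinearMap.mulLeft ℚ a)) := by
            refine Submodule.span_le.2 ?_
            rintro _ ⟨o', ho', r', s', hrs', a', ha', b', hb', rfl⟩
            change a * (a' * b') * α ∈ T.Cv N x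
            have h4 : a * (a' * b') * α = a * a' * (b' * α) := by
              simp only [mul_assoc]
            rw [h4]
            refine cv_of_dim_le_one h (by omega) (r := r + r' - T.dim o)
              (s := s' + (T.dim x - ρ) - T.dim j) ?_ (T.mul_mem ha ha') (T.mul_mem hb' hα)
            rw [ho']
            push_cast
            omega
          exact h3 h1
        · refine Submodule.mem_sup_right ?_
          have h1 : β * p k * α ∈ T.Sfc x False (fun _ => True) :=
            Submodule.subset_span ⟨j, p, k, ρ, hj, hp, fun h2 h3 => hk ⟨h2, h3⟩, trivial, β, hβ, α,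
              hα, rfl⟩
          have h2 := sfc_mul rfl hab h1 (T.Δ_mem x)
          have h3 : a * b * (β * p k * α) ∈ T.CH x x (T.dim x) := by
            refine mul_mem_self hab ?_
            have h4 := T.mul_mem (T.mul_mem hβ (hp.1.1.1 k)) hα
            rwa [show (T.dim j : ℤ) + ρ + T.dim j - T.dim j + (T.dim x - ρ) - T.dim j = T.dim x by
              ring] at h4
          rwa [T.mul_Δ h3] at h2
      | zero =>
        rw [mul_zero]
        exact Submodule.zero_mem _
      | add u v _ _ hu hv =>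
        rw [mul_add]
        exact Submodule.add_mem _ hu hv
      | smul q u _ hu =>
        rw [mul_smul_comm]
        exact Submodule.smul_mem _ q hu
  | zero =>
    rw [zero_mul]
    exact Submodule.zero_mem _
  | add u v _ _ hu hv =>
    rw [add_mul]
    exact Submodule.add_mem _ hu hv
  | smul q u _ hu =>
    rw [smul_mul_assoc]
    exact Submodule.smul_mem _ q hu

theorem mul_gen {N : Set T.ι} {x : T.ι} {g z : T.C} (hg : g ∈ T.CH x x (T.dim x))
    (hz : z ∈ T.Gen N x) : g * z ∈ T.Gen N x := by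
  have h1 := mul_gen_mul rfl hg hz (T.Δ_mem x)
  rwa [T.mul_Δ (mul_mem_self hg (gen_le hz))] at h1

theorem gen_mul {N : Set T.ι} {x : T.ι} {g z : T.C} (hg : g ∈ T.CH x x (T.dim x))
    (hz : z ∈ T.Gen N x) : z * g ∈ T.Gen N x := by
  have h1 := mul_gen_mul rfl (T.Δ_mem x) hz hg
  rwa [T.Δ_mul (gen_le hz)] at h1

theorem exc_mul_left {N : Set T.ι} {x : T.ι} {g z : T.C} (hg : g ∈ T.CH x x (T.dim x))
    (hz : z ∈ T.Exc N x) : g * z ∈ T.Exc N x := by
  have h1 := exc_mul hg hz (T.Δ_mem x)
  rwa [T.mul_Δ (mul_mem_self hg (exc_le _ _ hz))] at h1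

theorem exc_mul_right {N : Set T.ι} {x : T.ι} {g z : T.C} (hg : g ∈ T.CH x x (T.dim x))
    (hz : z ∈ T.Exc N x) : z * g ∈ T.Exc N x := by
  have h1 := exc_mul (T.Δ_mem x) hz hg
  rwa [T.Δ_mul (exc_le _ _ hz)] at h1

/-- `g * f(g)` belongs to a right module that contains `g` -/
theorem mul_aeval_mem {x : T.ι} {M : Submodule ℚ T.C} (hM : ∀ z ∈ M, ∀ k ∈ T.CH x x (T.dim x),
    z * k ∈ M) {g z : T.C} (hg : g ∈ T.CH x x (T.dim x)) (hz : z ∈ M) (f : ℚ[X]) :
    z * aeval g f ∈ M := by
  induction f using Polynomial.induction_on' with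
  | add p q hp hq =>
    rw [map_add, mul_add]
    exact Submodule.add_mem _ hp hq
  | monomial n a =>
    have h1 : z * aeval g (Polynomial.monomial n a) = a • (z * g ^ n) := by
      rw [aeval_monomial, ← Algebra.smul_def, mul_smul_comm]
    rw [h1]
    refine Submodule.smul_mem _ a ?_
    induction n with
    | zero => rwa [pow_zero, mul_one]
    | succ n ih =>
      rw [pow_succ, ← mul_assoc]
      exact hM _ (ih (by rw [aeval_monomial, ← Algebra.smul_def, mul_smul_comm])) g hg

theorem wt_mul {N : Set T.ι} (h : T.Facts N) {x : T.ι} {P : ℤ → Prop} {g z k : T.C}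
    (hg : g ∈ T.CH x x (T.dim x)) (hz : z ∈ T.Wt N x P) (hk : k ∈ T.CH x x (T.dim x)) :
    g * z * k ∈ T.Wt N x P := by
  obtain ⟨t, ht, σ, hσ, rfl⟩ := Submodule.mem_sup.1 hz
  rw [mul_add, add_mul]
  refine Submodule.add_mem_sup ⟨?_, fun m hm => ?_⟩ (sfc_mul rfl hg hσ hk)
  · have h1 := fac_mul (mul_fac hg ht.1) hk
    rwa [show (T.dim x : ℤ) + T.dim x - T.dim x + T.dim x - T.dim x = T.dim x by ring] at h1
  · rw [map_mul, map_mul, mul_assoc, commute_π h hk, ← mul_assoc, mul_assoc (T.R g), ht.2 m hm,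
      mul_zero, zero_mul]

theorem wt_mul_left {N : Set T.ι} (h : T.Facts N) {x : T.ι} {P : ℤ → Prop} {g z : T.C}
    (hg : g ∈ T.CH x x (T.dim x)) (hz : z ∈ T.Wt N x P) : g * z ∈ T.Wt N x P := by
  have h1 := wt_mul h hg hz (T.Δ_mem x)
  rwa [T.mul_Δ (mul_mem_self hg (wt_le hz))] at h1

theorem wt_mul_right {N : Set T.ι} (h : T.Facts N) {x : T.ι} {P : ℤ → Prop} {g z : T.C}
    (hg : g ∈ T.CH x x (T.dim x)) (hz : z ∈ T.Wt N x P) : z * g ∈ T.Wt N x P := by
  have h1 := wt_mul h (T.Δ_mem x) hz hg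
  rwa [T.Δ_mul (wt_le hz)] at h1

/-- a correspondence that is algebraic modulo exceptional ones and satisfies a polynomial `q` with
`q(0) ≠ 0` on some cohomology classes `v` can be replaced by a polynomial `f` in it that is idempotent
modulo exceptional ones and acts as the identity on `v` -/
theorem exists_idem_mod {N : Set T.ι} {x : T.ι} {g : T.C} (hg : g ∈ T.Gen N x) {p q : ℚ[X]}
    (hp : p ≠ 0) (hpg : g * aeval g p ∈ T.Exc N x) (hq : q.eval 0 ≠ 0) :
    ∃ s : ℚ[X], g * aeval g s ∈ T.Gen N x ∧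
      g * aeval g s * (g * aeval g s) - g * aeval g s ∈ T.Exc N x ∧
      ∀ v : T.H, T.R (aeval g q) * v = 0 → T.R (g * aeval g s) * v = v := by
  have hgC := gen_le hg
  have hq0 : q ≠ 0 := by
    rintro rfl
    exact hq eval_zero
  obtain ⟨Q, hPQ, hQ⟩ := Polynomial.exists_eq_pow_rootMultiplicity_mul_and_not_dvd (p * q)
    (mul_ne_zero hp hq0) 0
  set l := (p * q).rootMultiplicity 0
  have hirr : Irreducible (Polynomial.X - Polynomial.C (0 : ℚ)) := Polynomial.irreducible_X_sub_C 0
  have hcop : IsCoprime ((Polynomial.X - Polynomial.C (0 : ℚ)) ^ (l + 1)) Q :=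
    IsCoprime.pow_left ((hirr.coprime_iff_not_dvd).2 hQ)
  have hqX : IsCoprime ((Polynomial.X - Polynomial.C (0 : ℚ)) ^ l) q := by
    refine IsCoprime.pow_left ((hirr.coprime_iff_not_dvd).2 fun h1 => hq ?_)
    rwa [Polynomial.dvd_iff_isRoot] at h1
  obtain ⟨t, ht⟩ : q ∣ Q := by
    refine hqX.symm.dvd_of_dvd_mul_left ?_
    rw [← hPQ]
    exact Dvd.intro_left p rfl
  rw [map_zero, sub_zero] at hPQ hcop
  obtain ⟨u, w, huw⟩ := hcop
  have h2 : Polynomial.X * (u * Polynomial.X ^ l) = 1 - w * Q := by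
    rw [← huw]; ring
  have h3 : g * aeval g (u * Polynomial.X ^ l) = aeval g (Polynomial.X * (u * Polynomial.X ^ l)) := by
    rw [map_mul (aeval g) Polynomial.X, aeval_X]
  refine ⟨u * Polynomial.X ^ l, ?_, ?_, ?_⟩
  · exact mul_aeval_mem (fun z hz k hk => gen_mul hk hz) hgC hg _
  · have h4 : Polynomial.X * (u * Polynomial.X ^ l) * (Polynomial.X * (u * Polynomial.X ^ l)) -
        Polynomial.X * (u * Polynomial.X ^ l) = Polynomial.X * p * (-(u * w) * q) := by
      have h5 : Polynomial.X * (u * Polynomial.X ^ l) * (Polynomial.X * (u * Polynomial.X ^ l)) -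
          Polynomial.X * (u * Polynomial.X ^ l) = -(Polynomial.X * (u * Polynomial.X ^ l)) *
            (1 - Polynomial.X * (u * Polynomial.X ^ l)) := by ring
      have h6 : Polynomial.X * p * (-(u * w) * q) = -(u * w) * Polynomial.X * (p * q) := by ring
      rw [h5, h6, hPQ, h2]
      have h7 : (1 : ℚ[X]) - (1 - w * Q) = w * Q := by ring
      rw [h7, ← h2]
      ring
    rw [h3, ← map_mul, ← map_sub, h4, map_mul, map_mul, aeval_X]
    exact mul_aeval_mem (fun z hz k hk => exc_mul_right hk hz) hgC hpg _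
  · intro v hv
    have h5 : T.R (aeval g (w * Q)) * v = 0 := by
      have h6 : w * Q = w * t * q := by rw [ht]; ring
      rw [h6, map_mul, map_mul, mul_assoc, hv, mul_zero]
    rw [h3, h2, map_sub, map_sub, sub_mul, h5, sub_zero, map_one, map_one, one_mul]

/-- **Main step.** -/
theorem lowGen_of_idem_mod {N : Set T.ι} (h : T.Facts N) (h0 : T.Basic N) {x : T.ι} {f : T.C}
    (hf : f ∈ T.Gen N x) (hff : f * f - f ∈ T.Exc N x)
    (hk : ∀ k : Fin (T.dim x), T.R f * T.π x (low T k) = T.π x (low T k)) : T.LowGen N x := by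
  obtain ⟨u, hu, v, hv, huv⟩ := gen_split h hf ((T.dim x : ℤ) - 1)
  have huC : u ∈ T.CH x x (T.dim x) := wt_le hu
  have hvC : v ∈ T.CH x x (T.dim x) := wt_le hv
  have hfC : f ∈ T.CH x x (T.dim x) := gen_le hf
  obtain ⟨ν, hν⟩ : ∃ ν, ν = f - (u + v) := ⟨_, rfl⟩
  rw [← hν] at huv
  have hνC : ν ∈ T.CH x x (T.dim x) := gen_le (nn_le_gen huv)
  have hfe : f = u + v + ν := by rw [hν]; abel
  -- the class of `u`
  have hRu : ∀ m : Fin (2 * T.dim x + 1), T.R u * T.π x m =
      if (m : ℕ) < T.dim x then T.π x m else 0 := by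
    intro m
    split_ifs with hm
    · have h1 : T.R f * T.π x m = T.π x m := hk ⟨m, hm⟩
      rw [hfe, map_add, map_add, add_mul, add_mul, huv.2, zero_mul, add_zero,
        wt_R h hv m (not_lt.2 (by
          have h2 : ((m : ℕ) : ℤ) < T.dim x := by exact_mod_cast hm
          omega)), add_zero] at h1
      exact h1
    · refine wt_R h hu m ?_
      have h2 : (T.dim x : ℤ) ≤ ((m : ℕ) : ℤ) := by exact_mod_cast not_lt.1 hm
      change ¬ (((m : ℕ) : ℤ) ≤ (T.dim x : ℤ) - 1)
      omega
  have hRuu : T.R u * T.R u = T.R u := by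
    have h1 : T.R u = ∑ m, T.R u * T.π x m := by
      rw [← Finset.mul_sum, T.π_sum, ← map_mul, T.mul_Δ huC]
    conv_lhs => enter [2]; rw [h1]
    conv_rhs => rw [h1]
    rw [Finset.mul_sum]
    refine Finset.sum_congr rfl fun m _ => ?_
    by_cases hm : (m : ℕ) < T.dim x
    · have h2 := hRu m
      rw [if_pos hm] at h2
      rw [h2, h2]
    · have h2 := hRu m
      rw [if_neg hm] at h2
      rw [h2, mul_zero]
  -- `z = u * u - u`
  obtain ⟨z, hz⟩ : ∃ z, z = u * u - u := ⟨_, rfl⟩
  have hzC : z ∈ T.CH x x (T.dim x) := by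
    rw [hz]
    exact Submodule.sub_mem _ (mul_mem_self huC huC) huC
  have hRz : T.R z = 0 := by rw [hz, map_sub, map_mul, hRuu, sub_self]
  have hzW : z ∈ T.Wt N x (fun p => p ≤ (T.dim x : ℤ) - 1) := by
    rw [hz]
    exact Submodule.sub_mem _ (wt_mul_left h huC hu) hu
  have hcv : ∀ c ∈ T.nn N x, c ∈ T.Cv N x := fun c hc => Submodule.mem_sup_left hc.1
  have hzz : z * z ∈ T.Cv N x := by
    have e1 : z = (f * f - f) + (v - f * v - v * u) + (ν - f * ν - ν * u) := by
      have e2 : u = f - v - ν := by rw [hν]; abel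
      have e3 : u * u = f * u - v * u - ν * u := by
        have e6 : (f - v - ν) * u = f * u - v * u - ν * u := by rw [sub_mul, sub_mul]
        rwa [← e2] at e6
      have e4 : f * u = f * (f - v - ν) := by rw [← e2]
      have e5 : z = f * u - v * u - ν * u - (f - v - ν) := by
        rw [hz, e3, ← e2]
      rw [e5, e4, mul_sub, mul_sub]
      abel
    have h1 : (f * f - f) * z ∈ T.Cv N x := exc_wt h h0 hff hzW
    have h2 : v - f * v - v * u ∈ T.Wt N x (fun p => (T.dim x : ℤ) - 1 < p) :=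
      Submodule.sub_mem _ (Submodule.sub_mem _ hv (wt_mul_left h hfC hv)) (wt_mul_right h huC hv)
    have h3 : (v - f * v - v * u) * z ∈ T.Cv N x := by
      have h4 := wt_mul_mul h (fun p q hp hq => lt_of_le_of_lt hq hp) h2 (T.Δ_mem x) hzW
      rw [T.mul_Δ (wt_le h2)] at h4
      exact hcv _ h4
    have h5 : ν - f * ν - ν * u ∈ T.nn N x := by
      refine Submodule.sub_mem _ (Submodule.sub_mem _ huv ?_) ?_
      · have h6 := mul_nn_mul rfl hfC huv (T.Δ_mem x)
        rwa [T.mul_Δ (mul_mem_self hfC hνC)] at h6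
      · have h6 := mul_nn_mul rfl (T.Δ_mem x) huv huC
        rwa [T.Δ_mul hνC] at h6
    have h7 : (ν - f * ν - ν * u) * z ∈ T.Cv N x := by
      have h6 := mul_nn_mul rfl (T.Δ_mem x) h5 hzC
      rw [T.Δ_mul (gen_le (nn_le_gen h5))] at h6
      exact hcv _ h6
    have e6 : z * z = (f * f - f) * z + (v - f * v - v * u) * z + (ν - f * ν - ν * u) * z := by
      rw [← add_mul, ← add_mul, ← e1]
    rw [e6]
    exact Submodule.add_mem _ (Submodule.add_mem _ h1 h3) h7
  have hnil : IsNilpotent z := by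
    obtain ⟨n, hn⟩ := cv_nilpotent h hzz (by rw [map_mul, hRz, mul_zero])
    exact ⟨2 * n, by rw [pow_mul, pow_two, hn]⟩
  rw [hz] at hnil
  obtain ⟨y, hy, hyy, hRy⟩ := lift_idem huC hnil hRuu
  refine ⟨u * y, gen_mul hy (wt_le_gen hu), hyy, fun k => ?_⟩
  rw [hRy, hRu]
  exact if_pos k.2

end Cycles

end SDCK
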